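import Pool.Agent.Helper26.HN.Stmts

/-! # Row DRI: integrated lower bound of the Coulomb energy -/

set_option autoImplicit false

namespace Pool.Agent.Helper90.HN

open MeasureTheory Filter Pool.Agent.Helper95 Pool.Agent.Helper95.PW Pool.Agent.Helper95.LN
  Pool.Agent.Helper26.HN

theorem near1_mono {M : ℕ} (X : Fin M → R3) {b d : ℝ} (h : b ≤ d) (y : R3) :
    near1 X b y ≤ near1 X d y := by
  unfold near1
  refine Finset.sum_le_sum fun j _ => ?_
  split_ifs with h1 h2
  · exact le_rfl
  · exact absurd (lt_of_lt_of_le h1 h) h2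
  · exact one_div_nonneg.2 (Real.sqrt_nonneg _)
  · exact le_rfl

theorem DRI (h1 : ST_DRZ) (h2 : ST_ESB) (h3 : ST_AED) (h4 : ST_INTM) (h5 : ST_INZ) :
    ST_DRI := by
  intro d hd
  obtain ⟨C, hC, hD⟩ := h1 d hd
  refine ⟨C, hC, fun n M X Z z E u hz hM hN hZ hS hE hu ha hq hr => ?_⟩
  obtain ⟨-, -, hD3⟩ := hD n M X Z z E u hz hM hN hZ hS hE hu ha hq hr
  refine le_trans ?_ hD3
  have hI := (h5 n M X d u hu).1
  -- integrability
  have iV : ∀ s, Integrable (fun x => Vc X Z x * u s x ^ 2) := by
    intro s
    obtain ⟨i1, i2, -, -⟩ := h4 n M X Z (u s) (u s) (hu s).1 (hu s).2 (hu s).1 (hu s).2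
    have i3 : Integrable (fun x => u s x * u s x) :=
      (((hu s).1.continuous).mul ((hu s).1.continuous)).integrable_of_hasCompactSupport
        (hu s).2.mul_left
    refine ((i2.sub i1).add (i3.const_mul (nucR X Z))).congr (Eventually.of_forall fun x => ?_)
    simp only [Pi.add_apply, Pi.sub_apply]
    unfold Vc
    ring
  have i3 : ∀ s, Integrable (fun x => u s x ^ 2) := by
    intro s
    have i0 : Integrable (fun x => u s x * u s x) :=
      (((hu s).1.continuous).mul ((hu s).1.continuous)).integrable_of_hasCompactSupport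
        (hu s).2.mul_left
    refine i0.congr (Eventually.of_forall fun x => ?_)
    simp only
    ring
  have e1 : QM X Z u - kin u + nucR X Z * PW.sq u + 8 * (1 + z) / d * n * PW.sq u +
      z * one (near1 X d) u = ∑ s, ∫ x, (Vc X Z x + 8 * (1 + z) / d * n +
        z * ∑ k, near1 X d (x k)) * u s x ^ 2 := by
    have e2 : QM X Z u - kin u + nucR X Z * PW.sq u = ∑ s, ∫ x, Vc X Z x * u s x ^ 2 := by
      have e3 : QM X Z u - kin u = pair u - one (pot X Z) u := by
        unfold QM
        ring
      rw [e3]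
      unfold pair one PW.sq
      rw [Finset.mul_sum, ← Finset.sum_sub_distrib, ← Finset.sum_add_distrib]
      refine Finset.sum_congr rfl fun s _ => ?_
      obtain ⟨i1, i2, -, -⟩ := h4 n M X Z (u s) (u s) (hu s).1 (hu s).2 (hu s).1 (hu s).2
      have i1' : Integrable (fun x => (∑ k, pot X Z (x k)) * u s x ^ 2) :=
        i1.congr (Eventually.of_forall fun x => by simp only; ring)
      have i2' : Integrable (fun x => rep x * u s x ^ 2) :=
        i2.congr (Eventually.of_forall fun x => by simp only; ring)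
      have t0 : ∀ x, Vc X Z x * u s x ^ 2 = (rep x * u s x ^ 2 -
          (∑ k, pot X Z (x k)) * u s x ^ 2) + nucR X Z * u s x ^ 2 := by
        intro x
        unfold Vc
        ring
      have i4 : Integrable (fun x => rep x * u s x ^ 2 - (∑ k, pot X Z (x k)) * u s x ^ 2) :=
        i2'.sub i1'
      simp only [t0]
      rw [integral_add i4 ((i3 s).const_mul _), integral_sub i2' i1', integral_const_mul]
    rw [e2]
    unfold one PW.sq
    rw [Finset.mul_sum, Finset.mul_sum, ← Finset.sum_add_distrib, ← Finset.sum_add_distrib]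
    refine Finset.sum_congr rfl fun s _ => ?_
    have t0 : ∀ x, (Vc X Z x + 8 * (1 + z) / d * n + z * ∑ k, near1 X d (x k)) * u s x ^ 2 =
        (Vc X Z x * u s x ^ 2 + 8 * (1 + z) / d * n * u s x ^ 2) +
          z * ((∑ k, near1 X d (x k)) * u s x ^ 2) := fun x => by ring
    have i4 : Integrable (fun x => Vc X Z x * u s x ^ 2 + 8 * (1 + z) / d * n * u s x ^ 2) :=
      (iV s).add ((i3 s).const_mul _)
    simp only [t0]
    rw [integral_add i4 ((hI s).const_mul _), integral_add (iV s) ((i3 s).const_mul _),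
      integral_const_mul, integral_const_mul]
  rw [e1]
  refine Finset.sum_le_sum fun s _ => ?_
  have hae := h3 n M X
  have hz0 : (0 : ℝ) ≤ z := by linarith
  have hb : 0 < d / 8 := by positivity
  have hbd : d / 8 ≤ d := by linarith
  refine integral_mono_of_nonneg ?_ ?_ ?_
  · filter_upwards [hae] with x hx
    obtain ⟨a1, a2, -⟩ := h2 z (d / 8) d hz0 hb hbd n M X Z x hS hN hZ hx
    simp only [Pi.zero_apply]
    positivity
  · refine (((iV s).add ((i3 s).const_mul (8 * (1 + z) / d * n))).add
      ((hI s).const_mul z)).congr (Eventually.of_forall fun x => ?_)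
    simp only [Pi.add_apply]
    ring
  · filter_upwards [hae] with x hx
    obtain ⟨-, -, a3⟩ := h2 z (d / 8) d hz0 hb hbd n M X Z x hS hN hZ hx
    have a4 : ∑ k, near1 X (2 * (d / 8)) (x k) ≤ ∑ k, near1 X d (x k) :=
      Finset.sum_le_sum fun k _ => near1_mono X (by linarith) _
    have a5 : (1 + z) / (d / 8) * n = 8 * (1 + z) / d * n := by
      field_simp
    refine mul_le_mul_of_nonneg_right ?_ (sq_nonneg _)
    rw [a5] at a3
    nlinarith [mul_le_mul_of_nonneg_left a4 hz0]

end Pool.Agent.Helper90.HN
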